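import Mathlib

/-!
# MP_9f7db3_an: the contraction principle holds in every complete F-symmetric space

Proof.  Let `u n = g^n x`, let `δ` be given by (F) for `ε` and let `K` satisfy `lam ^ K * ε ≤ δ`.
For large `n` one has `d (u n) (u (n + K)) ≤ δ`.  If `d (u n) (u (n + j K)) ≤ ε` then
`d (u (n + K)) (u (n + (j + 1) K)) ≤ lam ^ K * ε ≤ δ`, hence `d (u n) (u (n + (j + 1) K)) ≤ ε`
by (F).  So the orbit is a Cauchy sequence.
-/

open Filter Topology

namespace Pool.Agent.Results.MP_9f7db3_an.ContractionPrinciple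

/-- `d` is a symmetric on `X`. -/
structure IsSymmetric {X : Type*} (d : X → X → ℝ) : Prop where
  nonneg : ∀ x y, 0 ≤ d x y
  symm : ∀ x y, d x y = d y x
  eq_iff : ∀ x y, d x y + d y x = 0 ↔ x = y

/-- Condition (F). -/
def CondF {X : Type*} (d : X → X → ℝ) : Prop :=
  ∀ ε : ℝ, 0 < ε → ∃ δ : ℝ, 0 < δ ∧ ∀ x y z : X, d x y ≤ δ → d y z ≤ δ → d x z ≤ ε

/-- The sequence `u` converges to `x`: `d x (u n) → 0`. -/
def ConvergesTo {X : Type*} (d : X → X → ℝ) (u : ℕ → X) (x : X) : Prop :=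
  Tendsto (fun n => d x (u n)) atTop (𝓝 0)

/-- `u` is a Cauchy sequence: `d (u n) (u m) → 0` as `n, m → ∞`. -/
def IsCauchySeq {X : Type*} (d : X → X → ℝ) (u : ℕ → X) : Prop :=
  Tendsto (fun p : ℕ × ℕ => d (u p.1) (u p.2)) (atTop ×ˢ atTop) (𝓝 0)

/-- `(X, d)` is complete: every Cauchy sequence converges. -/
def IsCompleteFor {X : Type*} (d : X → X → ℝ) : Prop :=
  ∀ u : ℕ → X, IsCauchySeq d u → ∃ x : X, ConvergesTo d u x

/-- `g` is a contraction. -/
def IsContraction {X : Type*} (d : X → X → ℝ) (g : X → X) : Prop :=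
  ∃ lam : ℝ, 0 ≤ lam ∧ lam < 1 ∧ ∀ x y : X, d (g x) (g y) ≤ lam * d x y

variable {X : Type*} {d : X → X → ℝ} {g : X → X}

lemma dist_self (hd : IsSymmetric d) (x : X) : d x x = 0 := by
  have h := (hd.eq_iff x x).2 rfl
  linarith

lemma eq_of_dist (hd : IsSymmetric d) {x y : X} (h : d x y = 0) : x = y := by
  apply (hd.eq_iff x y).1
  rw [← hd.symm x y, h, add_zero]

lemma iter_le {lam : ℝ} (h0 : 0 ≤ lam) (hg : ∀ x y : X, d (g x) (g y) ≤ lam * d x y)
    (n : ℕ) (x y : X) : d (g^[n] x) (g^[n] y) ≤ lam ^ n * d x y := by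
  induction n with
  | zero => simp
  | succ n ih =>
    rw [Function.iterate_succ_apply', Function.iterate_succ_apply', pow_succ]
    calc d (g (g^[n] x)) (g (g^[n] y)) ≤ lam * d (g^[n] x) (g^[n] y) := hg _ _
      _ ≤ lam * (lam ^ n * d x y) := mul_le_mul_of_nonneg_left ih h0
      _ = lam ^ n * lam * d x y := by ring

/-- orbits of contractions are Cauchy, in the form with `ε` -/
lemma orbit_cauchy (hd : IsSymmetric d) (hF : CondF d) {lam : ℝ} (h0 : 0 ≤ lam) (h1 : lam < 1)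
    (hg : ∀ x y : X, d (g x) (g y) ≤ lam * d x y) (x : X) {ε : ℝ} (hε : 0 < ε) :
    ∃ N : ℕ, ∀ n m : ℕ, N ≤ n → n ≤ m → d (g^[n] x) (g^[m] x) ≤ ε := by
  obtain ⟨δ₁, hδ₁, hF₁⟩ := hF ε hε
  obtain ⟨δ₂, hδ₂, hF₂⟩ := hF δ₁ hδ₁
  have hpow : Tendsto (fun n : ℕ => lam ^ n) atTop (𝓝 0) :=
    tendsto_pow_atTop_nhds_zero_of_lt_one h0 h1
  -- `K`
  have hK : ∃ K : ℕ, 1 ≤ K ∧ lam ^ K * δ₁ ≤ δ₂ := by
    have h : Tendsto (fun n : ℕ => lam ^ n * δ₁) atTop (𝓝 0) := by
      simpa using hpow.mul_const δ₁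
    obtain ⟨K, hK1, hK2⟩ := ((h.eventually (gt_mem_nhds hδ₂)).and (eventually_ge_atTop 1)).exists
    exact ⟨K, hK2, hK1.le⟩
  obtain ⟨K, hK1, hK⟩ := hK
  -- small steps
  have hsmall : ∀ (r : ℕ) (η : ℝ), 0 < η → ∀ᶠ n in atTop, d (g^[n] x) (g^[n + r] x) ≤ η := by
    intro r η hη
    have h : Tendsto (fun n : ℕ => lam ^ n * d x (g^[r] x)) atTop (𝓝 0) := by
      simpa using hpow.mul_const (d x (g^[r] x))
    filter_upwards [h.eventually (gt_mem_nhds hη)] with n hn
    have h2 := iter_le h0 hg n x (g^[r] x)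
    rw [← Function.iterate_add_apply] at h2
    exact h2.trans hn.le
  obtain ⟨N₁, hN₁⟩ := eventually_atTop.1 (hsmall K δ₂ hδ₂)
  have hall : ∀ᶠ n in atTop, ∀ r ∈ Finset.range K, d (g^[n] x) (g^[n + r] x) ≤ δ₁ := by
    rw [Finset.eventually_all]
    intro r _
    exact hsmall r δ₁ hδ₁
  obtain ⟨N₂, hN₂⟩ := eventually_atTop.1 hall
  have hmain : ∀ n, N₁ ≤ n → ∀ j : ℕ, d (g^[n] x) (g^[n + j * K] x) ≤ δ₁ := by
    intro n hn j
    induction j with
    | zero => simp [dist_self hd, hδ₁.le]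
    | succ j ih =>
      have h2 := iter_le h0 hg K (g^[n] x) (g^[n + j * K] x)
      rw [← Function.iterate_add_apply, ← Function.iterate_add_apply] at h2
      have e1 : K + n = n + K := add_comm _ _
      have e2 : K + (n + j * K) = n + (j + 1) * K := by ring
      rw [e1, e2] at h2
      have h3 : d (g^[n + K] x) (g^[n + (j + 1) * K] x) ≤ δ₂ :=
        h2.trans ((mul_le_mul_of_nonneg_left ih (pow_nonneg h0 K)).trans hK)
      exact hF₂ _ _ _ (hN₁ n hn) h3
  refine ⟨max N₁ N₂, fun n m hn hnm => ?_⟩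
  obtain ⟨k, rfl⟩ := Nat.exists_eq_add_of_le hnm
  have hk : k = (k / K) * K + k % K := by
    have := Nat.div_add_mod k K
    rw [mul_comm] at this
    exact this.symm
  have h3 := hmain n ((le_max_left _ _).trans hn) (k / K)
  have h4 := hN₂ (n + (k / K) * K) (((le_max_right _ _).trans hn).trans (Nat.le_add_right _ _))
    (k % K) (Finset.mem_range.2 (Nat.mod_lt _ hK1))
  have e : n + k = n + (k / K) * K + k % K := by omega
  rw [e]
  exact hF₁ _ _ _ h3 h4

lemma isCauchySeq_orbit (hd : IsSymmetric d) (hF : CondF d) {lam : ℝ} (h0 : 0 ≤ lam)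
    (h1 : lam < 1) (hg : ∀ x y : X, d (g x) (g y) ≤ lam * d x y) (x : X) :
    IsCauchySeq d (fun n => g^[n + 1] x) := by
  unfold IsCauchySeq
  rw [Metric.tendsto_nhds]
  intro ε hε
  obtain ⟨N, hN⟩ := orbit_cauchy hd hF h0 h1 hg x (half_pos hε)
  have h : ∀ᶠ p : ℕ × ℕ in atTop ×ˢ atTop, N ≤ p.1 ∧ N ≤ p.2 :=
    (eventually_ge_atTop N).prod_mk (eventually_ge_atTop N)
  filter_upwards [h] with p hp
  rw [Real.dist_eq, sub_zero, abs_of_nonneg (hd.nonneg _ _)]
  rcases le_total p.1 p.2 with h2 | h2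
  · exact lt_of_le_of_lt (hN _ _ (by omega) (by omega)) (half_lt_self hε)
  · rw [hd.symm]
    exact lt_of_le_of_lt (hN _ _ (by omega) (by omega)) (half_lt_self hε)

/-- **Contraction principle for F-symmetric spaces.** Let `(X, d)` be a nonempty complete
F-symmetric space and `g` a contraction of it. Then `g` has exactly one fixed point, and every
Picard orbit is a Cauchy sequence and converges to it. -/
theorem result {X : Type*} [Nonempty X] (d : X → X → ℝ) (hd : IsSymmetric d) (hF : CondF d)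
    (hc : IsCompleteFor d) (g : X → X) (hg : IsContraction d g) :
    ∃ z : X, g z = z ∧ (∀ w : X, g w = w → w = z) ∧
      ∀ x : X, IsCauchySeq d (fun n => g^[n + 1] x) ∧ ConvergesTo d (fun n => g^[n + 1] x) z := by
  obtain ⟨lam, h0, h1, hg⟩ := hg
  -- uniqueness of fixed points
  have huniq : ∀ z w : X, g z = z → g w = w → w = z := by
    intro z w hz hw
    have h := hg w z
    rw [hz, hw] at h
    have h2 := hd.nonneg w z
    apply eq_of_dist hd
    nlinarith
  -- uniqueness of limits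
  have hlim : ∀ (u : ℕ → X) (a b : X), ConvergesTo d u a → ConvergesTo d u b → a = b := by
    intro u a b ha hb
    apply eq_of_dist hd
    by_contra hne
    have hpos : 0 < d a b := lt_of_le_of_ne (hd.nonneg _ _) (Ne.symm hne)
    obtain ⟨δ, hδ, h⟩ := hF (d a b / 2) (half_pos hpos)
    obtain ⟨n, hn1, hn2⟩ := ((ha.eventually (gt_mem_nhds hδ)).and
      (hb.eventually (gt_mem_nhds hδ))).exists
    have h2 := h a (u n) b hn1.le (by rw [hd.symm]; exact hn2.le)
    linarith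
  -- every orbit converges to a fixed point
  have hfix : ∀ x : X, ∃ z : X, g z = z ∧ ConvergesTo d (fun n => g^[n + 1] x) z := by
    intro x
    obtain ⟨z, hz⟩ := hc _ (isCauchySeq_orbit hd hF h0 h1 hg x)
    refine ⟨z, ?_, hz⟩
    have ha : ConvergesTo d (fun n => g^[n + 2] x) z := by
      have := hz.comp (tendsto_add_atTop_nat 1)
      exact this
    have hb : ConvergesTo d (fun n => g^[n + 2] x) (g z) := by
      have h3 : Tendsto (fun n => lam * d z (g^[n + 1] x)) atTop (𝓝 0) := by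
        simpa using hz.const_mul lam
      refine squeeze_zero (fun n => hd.nonneg _ _) (fun n => ?_) h3
      have h4 := hg z (g^[n + 1] x)
      rw [← Function.iterate_succ_apply' g] at h4
      exact h4
    exact (hlim _ _ _ ha hb).symm
  obtain ⟨x₀⟩ := ‹Nonempty X›
  obtain ⟨z, hz, -⟩ := hfix x₀
  refine ⟨z, hz, fun w hw => huniq z w hz hw, fun x => ⟨isCauchySeq_orbit hd hF h0 h1 hg x, ?_⟩⟩
  obtain ⟨w, hw, hw2⟩ := hfix x
  rw [huniq z w hz hw] at hw2
  exact hw2

end Pool.Agent.Results.MP_9f7db3_an.ContractionPrinciple
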